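import Pool.Agent.J6H47.NX.Fin13
import Pool.Agent.J6H23.NX.Core
import Pool.Agent.J6H23.NX.Cover
import Pool.Agent.J6H48.NX.First
import Pool.Agent.J6H99.NX.ClG
import Pool.Agent.J6H59.NX.ClGeo
import Pool.Agent.J6H81.NX.U
import Pool.Agent.J6H75.NX.Reach
import Pool.Agent.J6H75.NX.SS
import Pool.Agent.J6H19.NX.Grow
import Pool.Agent.J6H72.NX.Power
import Pool.Agent.J6H48.NX.Law
import Pool.Agent.J6H54.NX.Ray2

/-!
# Assembly without hypotheses: no corners; infinitely many rays in dimensions two and three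
(exponential moments)
-/

set_option autoImplicit false

open MeasureTheory ProbabilityTheory Filter Topology
open scoped ENNReal
open Pool.Agent.J6H99.NX

namespace Pool.Agent.J6H47.NX

/-- module CL -/
theorem cl : ClT :=
  Pool.Agent.J6H59.NX.clgeo (Pool.Agent.J6H23.NX.Core.core Pool.Agent.J6H48.NX.first
    Pool.Agent.J6H99.NX.trials Pool.Agent.J6H99.NX.chain)

/-- **No corners.** -/
theorem nocor (e : ℕ) (q : Par) (F : Measure ℝ) [IsProbabilityMeasure F] [MB q F]
    (hV : VarB e q F) (hF : FarB e q F) (hN : NonDeg q F) : NoCor e q F :=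
  nocor_of cl Pool.Agent.J6H75.NX.SS.ss Pool.Agent.J6H19.NX.grow Pool.Agent.J6H72.NX.power
    Pool.Agent.J6H81.NX.u Pool.Agent.J6H75.NX.Reach.reach e q F hV hF hN

/-- **Infinitely many rays**, canonical model, dimensions two and three. -/
theorem fin13 : Fin13T :=
  fin13_of cl Pool.Agent.J6H75.NX.SS.ss Pool.Agent.J6H19.NX.grow Pool.Agent.J6H72.NX.power
    Pool.Agent.J6H81.NX.u Pool.Agent.J6H75.NX.Reach.reach Pool.Agent.J6H48.NX.law
    Pool.Agent.J6H54.NX.ray2 Pool.Agent.J6H23.NX.cover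

end Pool.Agent.J6H47.NX
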